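import Mathlib

/-!
Algebraic independence and linear independence of differentials in characteristic zero.
-/

namespace Pool.Agent.H76Lm

open TensorProduct

theorem lin_basis {L : Type} [Field L] [CharZero L] (A : Subring L) {σ : Type} (y : σ → L)
    (hy : IsTranscendenceBasis A y) :
    LinearIndependent L (fun i => KaehlerDifferential.D A L (y i)) := by
  let S := MvPolynomial σ A
  let f : S →ₐ[A] L := MvPolynomial.aeval y
  have hf : Function.Injective f := hy.1
  let _ : Algebra S L := f.toRingHom.toAlgebra
  have _ : IsScalarTower A S L := IsScalarTower.of_algebraMap_eq' f.comp_algebraMap.symm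
  have _ : FaithfulSMul S L := (faithfulSMul_iff_algebraMap_injective S L).2 hf
  have _ : IsDomain S := inferInstance
  have _ := hy.isAlgebraic
  have _ : Algebra.IsAlgebraic S L :=
    Algebra.IsAlgebraic.of_ringHom_of_comp_eq (S := Algebra.adjoin A (Set.range y)) (B := L)
      (hy.1.aevalEquiv : S ≃ₐ[A] Algebra.adjoin A (Set.range y)) (RingHom.id L)
      hy.1.aevalEquiv.surjective Function.injective_id (by
        refine RingHom.ext fun a => ?_
        change ((hy.1.aevalEquiv a : Algebra.adjoin A (Set.range y)) : L) = f a
        exact hy.1.algebraMap_aevalEquiv a)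
  let K := FractionRing S
  let _ : Algebra K L := FractionRing.liftAlgebra S L
  have _ : IsScalarTower S K L := FractionRing.isScalarTower_liftAlgebra S L
  have _ : Algebra.IsAlgebraic K L := (IsFractionRing.comap_isAlgebraic_iff (A := S) (K := K)).1 ‹_›
  have _ : CharZero K := by
    refine charZero_of_injective_algebraMap (R := S) ?_
    exact IsFractionRing.injective S K
  have _ : Algebra.IsSeparable K L := inferInstance
  have _ : Algebra.FormallyEtale S K := Algebra.FormallyEtale.of_isLocalization (nonZeroDivisors S)
  have _ : Algebra.FormallyEtale K L := Algebra.FormallyEtale.of_isSeparable K L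
  have _ : Algebra.FormallyEtale S L := Algebra.FormallyEtale.comp S K L
  let b := ((KaehlerDifferential.mvPolynomialBasis A σ).baseChange L).map
    (KaehlerDifferential.tensorKaehlerEquivOfFormallyEtale A S L)
  have hb : ∀ i, b i = KaehlerDifferential.D A L (y i) := by
    intro i
    simp only [b, Module.Basis.map_apply, Module.Basis.baseChange_apply]
    rw [KaehlerDifferential.mvPolynomialBasis_apply, ← LinearEquiv.eq_symm_apply]
    have := KaehlerDifferential.tensorKaehlerEquivOfFormallyEtale_symm_D_algebraMap A S L
      (MvPolynomial.X i)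
    rw [← this]
    congr 2
    exact (MvPolynomial.aeval_X y i)
  have := b.linearIndependent
  rwa [show (b : σ → _) = fun i => KaehlerDifferential.D A L (y i) from funext hb] at this

theorem lin_of_alg {L : Type} [Field L] [CharZero L] (A : Subring L) {ι : Type} [Finite ι]
    (x : ι → L) (h : AlgebraicIndependent A x) :
    LinearIndependent L (fun i => KaehlerDifferential.D A L (x i)) := by
  obtain ⟨t, ht, hb⟩ := exists_isTranscendenceBasis_superset h.coe_range
  have := (lin_basis A _ hb).comp (fun i => (⟨x i, ht ⟨i, rfl⟩⟩ : t)) (fun i j hij => by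
    exact h.injective (congrArg Subtype.val hij))
  exact this

theorem chain {L : Type} [Field L] (A : Subring L) {ι : Type} [Fintype ι] (x : ι → L)
    (p : MvPolynomial ι A) :
    KaehlerDifferential.D A L (MvPolynomial.aeval x p) =
      ∑ i, MvPolynomial.aeval x (MvPolynomial.pderiv i p) • KaehlerDifferential.D A L (x i) := by
  classical
  induction p using MvPolynomial.induction_on with
  | C a => simp
  | add p q hp hq => simp [hp, hq, add_smul, Finset.sum_add_distrib]
  | mul_X p j hp =>
    simp only [map_mul, MvPolynomial.aeval_X, Derivation.leibniz, hp, MvPolynomial.pderiv_X,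
      map_add, smul_eq_mul, add_smul, Finset.sum_add_distrib, Finset.smul_sum, mul_smul]
    congr 1
    rw [Finset.sum_eq_single j]
    · simp
    · intro i _ hi
      simp [hi.symm]
    · simp

theorem totalDegree_pderiv {R ι : Type} [CommRing R] (i : ι) (p : MvPolynomial ι R) (d : ℕ)
    (hp : p.totalDegree ≤ d + 1) : (MvPolynomial.pderiv i p).totalDegree ≤ d := by
  rw [MvPolynomial.totalDegree, Finset.sup_le_iff]
  intro m hm
  rw [MvPolynomial.mem_support_iff, MvPolynomial.coeff_pderiv] at hm
  have h1 : m + Finsupp.single i 1 ∈ p.support := by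
    rw [MvPolynomial.mem_support_iff]
    intro h
    rw [h, zero_mul] at hm
    exact hm rfl
  have h2 := (MvPolynomial.le_totalDegree h1).trans hp
  rw [Finsupp.sum_add_index' (fun _ => rfl) (fun _ _ _ => rfl), Finsupp.sum_single_index rfl] at h2
  omega

theorem alg_of_lin {L : Type} [Field L] [CharZero L] (A : Subring L) {ι : Type} [Finite ι]
    (x : ι → L) (h : LinearIndependent L (fun i => KaehlerDifferential.D A L (x i))) :
    AlgebraicIndependent A x := by
  classical
  cases nonempty_fintype ι
  rw [algebraicIndependent_iff]
  suffices H : ∀ d, ∀ p : MvPolynomial ι A, p.totalDegree ≤ d → MvPolynomial.aeval x p = 0 →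
      p = 0 from fun p => H _ p le_rfl
  intro d
  induction d with
  | zero =>
    intro p hp hx
    rw [Nat.le_zero, MvPolynomial.totalDegree_eq_zero_iff_eq_C] at hp
    rw [hp, MvPolynomial.aeval_C] at hx
    rw [hp, (map_eq_zero_iff _ (FaithfulSMul.algebraMap_injective A L)).1 hx, map_zero]
  | succ d ih =>
    intro p hp hx
    have h1 := chain A x p
    rw [hx, map_zero] at h1
    have h2 := Fintype.linearIndependent_iff.1 h _ h1.symm
    have h3 : ∀ i, MvPolynomial.pderiv i p = 0 := fun i =>
      ih _ (totalDegree_pderiv i p d hp) (h2 i)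
    have h4 : p.totalDegree = 0 := by
      rw [← Nat.le_zero, MvPolynomial.totalDegree, Finset.sup_le_iff]
      intro m hm
      suffices hm0 : m = 0 by simp [hm0]
      by_contra hne
      obtain ⟨i, hi⟩ := Finsupp.ne_iff.1 hne
      have h5 : m - Finsupp.single i 1 + Finsupp.single i 1 = m :=
        tsub_add_cancel_of_le (Finsupp.single_le_iff.2 (Nat.one_le_iff_ne_zero.2 hi))
      have h6 := MvPolynomial.coeff_pderiv (i := i) p (m - Finsupp.single i 1)
      rw [h3 i, h5, MvPolynomial.coeff_zero] at h6
      rcases mul_eq_zero.1 h6.symm with h7 | h7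
      · exact MvPolynomial.mem_support_iff.1 hm h7
      · exact Nat.cast_add_one_ne_zero (R := A) _ h7
    exact ih p (by omega) hx

end Pool.Agent.H76Lm
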